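import Pool.Agent.Helper44.KS.GoalsE

/-!
# KS-MKT: the types of a sequence of systems form a `TSeq`
-/

namespace Pool.Agent.Helper96.KS

open MeasureTheory Filter Topology Set
open Pool.Agent.Helper44.KS

noncomputable section

variable {c : ℝ}

/-- the type vector -/
def wt (Z : KSys c) {r : ℕ} (g : Fin r → (Fin Z.n → ℝ) → ℝ) (p : Fin Z.n) (i : Fin r) : ℝ :=
  ∫ d, g i d * Z.Y d p ∂Z.μ

theorem int_Y (Z : KSys c) (p : Fin Z.n) : Integrable (fun d => Z.Y d p) Z.μ :=
  (Z.int p).sub (integrable_const _)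

theorem int_gY (Z : KSys c) (g : (Fin Z.n → ℝ) → ℝ) (hg : Measurable g) (hb : ∀ d, |g d| ≤ 1)
    (p : Fin Z.n) : Integrable (fun d => g d * Z.Y d p) Z.μ := by
  refine (int_Y Z p).bdd_mul (c := 1) hg.aestronglyMeasurable ?_
  exact Eventually.of_forall fun d => by simpa using hb d

theorem int_g (Z : KSys c) (g : (Fin Z.n → ℝ) → ℝ) (hg : Measurable g) (hb : ∀ d, |g d| ≤ 1) :
    Integrable g Z.μ := by
  refine Integrable.of_bound hg.aestronglyMeasurable 1 ?_
  exact Eventually.of_forall fun d => by simpa using hb d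

theorem abs_int_g (Z : KSys c) (g : (Fin Z.n → ℝ) → ℝ) (hg : Measurable g) (hb : ∀ d, |g d| ≤ 1) :
    |∫ d, g d ∂Z.μ| ≤ 1 := by
  calc |∫ d, g d ∂Z.μ| ≤ ∫ d, |g d| ∂Z.μ := abs_integral_le_integral_abs
    _ ≤ ∫ _, (1 : ℝ) ∂Z.μ :=
      integral_mono (int_g Z g hg hb).abs (integrable_const _) hb
    _ = 1 := by simp

theorem wt_le (Z : KSys c) (g : (Fin Z.n → ℝ) → ℝ) (hg : Measurable g) (hb : ∀ d, |g d| ≤ 1)
    (p : Fin Z.n) (hp : p ∈ Z.W Z.S) : |∫ d, g d * Z.Y d p ∂Z.μ| ≤ 4 := by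
  have hp' : |∫ e, e p ∂Z.μ| ≤ Z.S := by
    simpa [KSys.W, KSys.a] using hp
  calc |∫ d, g d * Z.Y d p ∂Z.μ| ≤ ∫ d, |g d * Z.Y d p| ∂Z.μ := abs_integral_le_integral_abs
    _ ≤ ∫ d, |Z.Y d p| ∂Z.μ := by
      refine integral_mono (int_gY Z g hg hb p).abs (int_Y Z p).abs fun d => ?_
      show |g d * Z.Y d p| ≤ |Z.Y d p|
      rw [abs_mul]
      exact mul_le_of_le_one_left (abs_nonneg _) (hb d)
    _ ≤ 4 := Z.m1 p hp'

/-- the density -/
def psi (Z : KSys c) {r : ℕ} (g : Fin r → (Fin Z.n → ℝ) → ℝ) (t : Fin r → ℝ)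
    (d : Fin Z.n → ℝ) : ℝ := 1 + ∑ i, t i * (g i d - ∫ e, g i e ∂Z.μ)

theorem psi_meas (Z : KSys c) {r : ℕ} (g : Fin r → (Fin Z.n → ℝ) → ℝ) (hg : ∀ i, Measurable (g i))
    (t : Fin r → ℝ) : Measurable (psi Z g t) := by
  unfold psi
  exact measurable_const.add (Finset.measurable_fun_sum _ fun i _ =>
    ((hg i).sub_const _).const_mul _)

theorem psi_bd (Z : KSys c) {r : ℕ} (g : Fin r → (Fin Z.n → ℝ) → ℝ) (hg : ∀ i, Measurable (g i))
    (hb : ∀ i d, |g i d| ≤ 1) (t : Fin r → ℝ) (ht : ∑ i, |t i| ≤ 1 / 2) (d : Fin Z.n → ℝ) :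
    0 ≤ psi Z g t d ∧ psi Z g t d ≤ 2 := by
  have h : |∑ i, t i * (g i d - ∫ e, g i e ∂Z.μ)| ≤ 1 := by
    calc |∑ i, t i * (g i d - ∫ e, g i e ∂Z.μ)| ≤ ∑ i, |t i * (g i d - ∫ e, g i e ∂Z.μ)| :=
          Finset.abs_sum_le_sum_abs _ _
      _ ≤ ∑ i, |t i| * 2 := by
          refine Finset.sum_le_sum fun i _ => ?_
          rw [abs_mul]
          refine mul_le_mul_of_nonneg_left ?_ (abs_nonneg _)
          have h1 := abs_le.1 (hb i d)
          have h2 := abs_le.1 (abs_int_g Z (g i) (hg i) (hb i))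
          rw [abs_le]
          constructor <;> linarith [h1.1, h1.2, h2.1, h2.2]
      _ = (∑ i, |t i|) * 2 := by rw [Finset.sum_mul]
      _ ≤ 1 := by linarith
  have h' := abs_le.1 h
  unfold psi
  constructor <;> linarith [h'.1, h'.2]

theorem psi_int (Z : KSys c) {r : ℕ} (g : Fin r → (Fin Z.n → ℝ) → ℝ) (hg : ∀ i, Measurable (g i))
    (hb : ∀ i d, |g i d| ≤ 1) (t : Fin r → ℝ) : ∫ d, psi Z g t d ∂Z.μ = 1 := by
  unfold psi
  have h1 : ∀ i, Integrable (fun d => t i * (g i d - ∫ e, g i e ∂Z.μ)) Z.μ := fun i =>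
    (((int_g Z (g i) (hg i) (hb i))).sub (integrable_const _)).const_mul _
  rw [integral_add (integrable_const _) (integrable_finsetSum _ fun i _ => h1 i),
    integral_finsetSum _ fun i _ => h1 i]
  have h2 : ∀ i, ∫ d, t i * (g i d - ∫ e, g i e ∂Z.μ) ∂Z.μ = 0 := by
    intro i
    rw [integral_const_mul, integral_sub (int_g Z (g i) (hg i) (hb i)) (integrable_const _)]
    simp
  simp [h2]

theorem psi_avg (Z : KSys c) {r : ℕ} (g : Fin r → (Fin Z.n → ℝ) → ℝ) (hg : ∀ i, Measurable (g i))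
    (hb : ∀ i d, |g i d| ≤ 1) (t : Fin r → ℝ) (p : Fin Z.n) :
    ∫ e, psi Z g t e * e p ∂Z.μ = Z.a p + ∑ i, t i * wt Z g p i := by
  have hge : ∀ i, Integrable (fun d : Fin Z.n → ℝ => g i d * d p) Z.μ := fun i => by
    refine (Z.int p).bdd_mul (c := 1) (hg i).aestronglyMeasurable ?_
    exact Eventually.of_forall fun d => by simpa using hb i d
  have h1 : ∀ i, Integrable (fun d : Fin Z.n → ℝ =>
      t i * (g i d * d p - (∫ e, g i e ∂Z.μ) * d p)) Z.μ := fun i =>
    ((hge i).sub ((Z.int p).const_mul _)).const_mul _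
  have h2 : ∀ e : Fin Z.n → ℝ, psi Z g t e * e p =
      e p + ∑ i, t i * (g i e * e p - (∫ e, g i e ∂Z.μ) * e p) := by
    intro e
    unfold psi
    rw [add_mul, one_mul, Finset.sum_mul]
    congr 1
    refine Finset.sum_congr rfl fun i _ => ?_
    ring
  simp_rw [h2]
  rw [integral_add (Z.int p) (integrable_finsetSum _ fun i _ => h1 i),
    integral_finsetSum _ fun i _ => h1 i]
  congr 1
  refine Finset.sum_congr rfl fun i _ => ?_
  rw [integral_const_mul, integral_sub (hge i) ((Z.int p).const_mul _), integral_const_mul]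
  congr 1
  unfold wt
  have h3 : ∀ d : Fin Z.n → ℝ, g i d * Z.Y d p = g i d * d p - g i d * Z.a p := by
    intro d
    unfold KSys.Y
    ring
  simp_rw [h3]
  rw [integral_sub (hge i) ((int_g Z (g i) (hg i) (hb i)).mul_const _), integral_mul_const]
  rfl

/-- MKT. -/
theorem mkt (hFIL : S_FIL) (hPRE : S_PRE) : S_MKT := by
  intro c hc Z hS hF r g hg hb κ ε a0 w0 hκ hε hw0 hcard s
  let T : TSeq r :=
    { k := fun N => (Z N).n
      P := fun N => (Z N).W (Z N).S
      S := fun N => (Z N).S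
      a := fun N => (Z N).a
      w := fun N p i => ∫ d, g N i d * (Z N).Y d p ∂(Z N).μ
      R := 4
      τ := 1 / 2
      S_pos := fun N => lt_of_lt_of_le one_pos (Z N).one_le
      τ_pos := by norm_num
      R_pos := by norm_num
      bd := fun N p hp i => wt_le (Z N) (g N i) (hg N i) (hb N i) p hp
      cnt := by
        intro N u
        refine le_trans ?_ ((Z N).cnt u)
        rw [Fintype.card_subtype]
        refine Nat.cast_le.2 (Finset.card_le_card ?_)
        intro p hp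
        rw [Finset.mem_filter] at hp
        rw [Finset.mem_filter]
        exact ⟨Finset.mem_univ _, hp.2⟩
      fill := by
        intro t ht G hG hGs
        have h := hFIL c hc Z hS hF (fun N => psi (Z N) (g N) t)
          (fun N => psi_meas (Z N) (g N) (hg N) t)
          (fun N d => psi_bd (Z N) (g N) (hg N) (hb N) t ht d)
          (fun N => psi_int (Z N) (g N) (hg N) (hb N) t) G hG hGs
        refine h.congr fun N => ?_
        congr 1
        refine Finset.sum_congr rfl fun p _ => ?_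
        rw [psi_avg (Z N) (g N) (hg N) (hb N) t p]
        rfl }
  have h := hPRE r T κ ε a0 w0 hκ hε hw0 hcard s
  refine h.mono fun N hN => ?_
  obtain ⟨p, -, h1, h2⟩ := hN
  exact ⟨p, h1, h2⟩

end

end Pool.Agent.Helper96.KS
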