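import Pool.Agent.Helper75.KS.GoalsX
import Pool.Agent.Helper96.GP.PEEL
import Pool.Agent.Helper12.GP.MST
import Pool.Agent.Helper94.GP.GMB
import Pool.Agent.Helper49.GP.GMC

/-!
# Project KS, goal GMM: moments of the points of the exponential model
-/

namespace Pool.Agent.Helper96.KS

open MeasureTheory
open Pool.Agent.Helper75.KS
open Pool.Agent.Helper89.GP (Ch PeelStmt MstStmt GmbStmt GmcStmt)

noncomputable section

/-- The density of the gamma law. -/
def gd (k : ℕ) (r : ℝ) : ENNReal := ENNReal.ofReal (Real.exp (-r) * r ^ k / (k.factorial : ℝ))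

theorem meas_gd (k : ℕ) : Measurable (gd k) := by
  have : Continuous fun r : ℝ => Real.exp (-r) * r ^ k / (k.factorial : ℝ) := by fun_prop
  exact ENNReal.measurable_ofReal.comp this.measurable

/-- The gamma law. -/
def nu (k : ℕ) : Measure ℝ := (volume.restrict (Set.Ioi (0 : ℝ))).withDensity (gd k)

theorem gam_int (k : ℕ) : IntegrableOn (fun r : ℝ => Real.exp (-r) * r ^ k) (Set.Ioi 0) ∧
    ∫ r in Set.Ioi (0 : ℝ), Real.exp (-r) * r ^ k = (k.factorial : ℝ) := by
  have hs : (0 : ℝ) < (k : ℝ) + 1 := by positivity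
  have h1 := Real.GammaIntegral_convergent hs
  have h2 := Real.Gamma_eq_integral hs
  have e : ∀ r : ℝ, Real.exp (-r) * r ^ ((k : ℝ) + 1 - 1) = Real.exp (-r) * r ^ k := by
    intro r
    rw [add_sub_cancel_right, Real.rpow_natCast]
  simp only [e] at h1 h2
  exact ⟨h1, by rw [← h2, Real.Gamma_nat_eq_factorial]⟩

theorem nu_int (k m : ℕ) : Integrable (fun r : ℝ => r ^ m) (nu k) ∧
    ∫ r, r ^ m ∂(nu k) = ((k + m).factorial : ℝ) / (k.factorial : ℝ) := by
  have hlt : ∀ᵐ r ∂(volume.restrict (Set.Ioi (0 : ℝ))), gd k r < ⊤ :=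
    Filter.Eventually.of_forall fun r => ENNReal.ofReal_lt_top
  have hg := gam_int (k + m)
  have hkey : ∀ r ∈ Set.Ioi (0 : ℝ), (gd k r).toReal • r ^ m =
      (Real.exp (-r) * r ^ (k + m)) / (k.factorial : ℝ) := by
    intro r hr
    have hr' : (0 : ℝ) < r := hr
    rw [gd, ENNReal.toReal_ofReal (by positivity), smul_eq_mul, pow_add]
    ring
  constructor
  · rw [nu, integrable_withDensity_iff_integrable_smul' (meas_gd k) hlt]
    refine (hg.1.div_const (k.factorial : ℝ)).congr ?_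
    filter_upwards [ae_restrict_mem measurableSet_Ioi] with r hr
    exact (hkey r hr).symm
  · rw [nu, integral_withDensity_eq_integral_toReal_smul (meas_gd k) hlt]
    rw [setIntegral_congr_fun measurableSet_Ioi hkey, integral_div, hg.2]

theorem P0_lint (n : ℕ) (S : Set (Fin n → ℝ)) (hS : MeasurableSet S) :
    P0 n S = ∫⁻ x in Ch (1 : Equiv.Perm (Fin n)), S.indicator 1 x * wt x := by
  rw [P0, withDensity_apply _ hS, ← lintegral_indicator hS]
  refine lintegral_congr fun x => ?_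
  by_cases hx : x ∈ S
  · simp [hx]
  · simp [hx]

theorem nu_app (k : ℕ) (s : Set ℝ) (hs : MeasurableSet s) :
    nu k s = ∫⁻ r in Set.Ioi (0 : ℝ), s.indicator 1 r * gd k r := by
  rw [nu, withDensity_apply _ hs, ← lintegral_indicator hs]
  refine lintegral_congr fun x => ?_
  by_cases hx : x ∈ s
  · simp [hx]
  · simp [hx]

theorem law_pt (hB : GmbStmt) (n : ℕ) (j : Fin n) : (P0 n).map (fun x => x j) = nu j := by
  ext s hs
  rw [Measure.map_apply (measurable_pi_apply j) hs, P0_lint n _ (measurable_pi_apply j hs),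
    nu_app _ s hs]
  have := hB n (s.indicator 1) j (measurable_one.indicator hs)
  exact this

theorem law_df (hC : GmcStmt) (n : ℕ) (i j : Fin n) (hij : i < j) :
    (P0 n).map (fun x => x j - x i) = nu ((j : ℕ) - i - 1) := by
  have hm : Measurable fun x : Fin n → ℝ => x j - x i :=
    (measurable_pi_apply j).sub (measurable_pi_apply i)
  ext s hs
  rw [Measure.map_apply hm hs, P0_lint n _ (hm hs), nu_app _ s hs]
  have := hC n (s.indicator 1) i j (measurable_one.indicator hs) hij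
  exact this

theorem var_lt (hC : GmcStmt) (n : ℕ) (i j : Fin n) (hij : i < j) :
    ∫ x, (x j - x i - ((j : ℝ) - (i : ℝ))) ^ 2 ∂(P0 n) = (j : ℝ) - (i : ℝ) := by
  have hm : Measurable fun x : Fin n → ℝ => x j - x i :=
    (measurable_pi_apply j).sub (measurable_pi_apply i)
  obtain ⟨k, hk⟩ : ∃ k : ℕ, (j : ℕ) = i + (k + 1) := by
    have : (i : ℕ) < j := hij
    exact ⟨(j : ℕ) - i - 1, by omega⟩
  have hk' : (j : ℕ) - i - 1 = k := by omega
  have hkr : (j : ℝ) - (i : ℝ) = (k : ℝ) + 1 := by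
    have : ((j : ℕ) : ℝ) = ((i : ℕ) : ℝ) + ((k : ℝ) + 1) := by rw [hk]; push_cast; ring
    linarith
  have h1 : ∫ x, (x j - x i - ((j : ℝ) - (i : ℝ))) ^ 2 ∂(P0 n) =
      ∫ r, (r - ((k : ℝ) + 1)) ^ 2 ∂((P0 n).map fun x => x j - x i) := by
    rw [integral_map hm.aemeasurable (by fun_prop)]
    rw [hkr]
  rw [h1, law_df hC n i j hij, hk', hkr]
  have i0 := nu_int k 0
  have i1 := nu_int k 1
  have i2 := nu_int k 2
  have e : ∀ r : ℝ, (r - ((k : ℝ) + 1)) ^ 2 =
      r ^ 2 - (2 * ((k : ℝ) + 1)) * r ^ 1 + ((k : ℝ) + 1) ^ 2 * r ^ 0 := by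
    intro r; ring
  have ia : Integrable (fun r : ℝ => r ^ 2 - (2 * ((k : ℝ) + 1)) * r ^ 1) (nu k) :=
    i2.1.sub (i1.1.const_mul _)
  have ib : Integrable (fun r : ℝ => ((k : ℝ) + 1) ^ 2 * r ^ 0) (nu k) := i0.1.const_mul _
  have ic : Integrable (fun r : ℝ => (2 * ((k : ℝ) + 1)) * r ^ 1) (nu k) := i1.1.const_mul _
  simp only [e]
  rw [integral_add ia ib, integral_sub i2.1 ic, integral_const_mul, integral_const_mul,
    i0.2, i1.2, i2.2]
  have hf : (k.factorial : ℝ) ≠ 0 := by exact_mod_cast (Nat.factorial_pos k).ne'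
  rw [show k + 2 = (k + 1) + 1 from rfl, Nat.factorial_succ (k + 1), Nat.factorial_succ k,
    Nat.add_zero]
  push_cast
  field_simp
  ring_nf

/-- GMM from GMB and GMC. -/
theorem gmm_of (hB : GmbStmt) (hC : GmcStmt) : GmmStmt := by
  intro n i j
  have i1 := nu_int (j : ℕ) 1
  have i2 := nu_int (j : ℕ) 2
  have hl := law_pt hB n j
  have hmj : AEMeasurable (fun x : Fin n → ℝ => x j) (P0 n) :=
    (measurable_pi_apply j).aemeasurable
  have hf : ((j : ℕ).factorial : ℝ) ≠ 0 := by exact_mod_cast (Nat.factorial_pos _).ne'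
  rw [← hl] at i1 i2
  refine ⟨?_, ?_, ?_, ?_⟩
  · have := (integrable_map_measure (by fun_prop) hmj).1 i1.1
    simpa [Function.comp_def] using this
  · have h := i1.2
    rw [integral_map hmj (by fun_prop), Nat.factorial_succ] at h
    simp only [pow_one] at h
    rw [h]
    push_cast
    field_simp
  · exact (integrable_map_measure (by fun_prop) hmj).1 i2.1
  · rcases lt_trichotomy i j with h | h | h
    · rw [var_lt hC n i j h]
      have : ((i : ℕ) : ℝ) ≤ ((j : ℕ) : ℝ) := by exact_mod_cast (Fin.lt_def.1 h).le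
      rw [abs_of_nonneg (by linarith)]
    · subst h
      simp
    · have e : ∀ x : Fin n → ℝ, (x j - x i - ((j : ℝ) - (i : ℝ))) ^ 2 =
          (x i - x j - ((i : ℝ) - (j : ℝ))) ^ 2 := by
        intro x; ring
      simp only [e]
      rw [var_lt hC n j i h]
      have : ((j : ℕ) : ℝ) ≤ ((i : ℕ) : ℝ) := by exact_mod_cast (Fin.lt_def.1 h).le
      rw [abs_of_nonpos (by linarith)]
      ring

/-- GMM. -/
theorem gmm : GmmStmt := by
  have hB := Pool.Agent.Helper94.GP.gmb Pool.Agent.Helper96.GP.peel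
    (Pool.Agent.Helper12.GP.mst Pool.Agent.Helper96.GP.peel)
  exact gmm_of hB (Pool.Agent.Helper49.GP.gmc Pool.Agent.Helper96.GP.peel hB)

end

end Pool.Agent.Helper96.KS
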