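import Pool.Agent.Helper27.KS.GoalsF

/-!
# Project KS, goal FNS: the final statements from the goals on relations
-/

namespace Pool.Agent.Helper96.KS

open Pool.Agent.Helper75.KS Pool.Agent.Helper27.KS
open Pool.Agent.Helper89.GP (LX po Ex Pr)

theorem pr_card {n : ℕ} (R : Fin n → Fin n → Prop) (u v : Fin n) :
    (Pr R fun σ => po σ u < po σ v) =
      (((LX R).filter fun σ => σ u < σ v).card : ℝ) / ((LX R).card : ℝ) :=
  Pool.Agent.Helper89.GP.Pr_def (R := R) fun σ => σ u < σ v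

theorem balDev (hT : TrgStmt) (hK : KsgStmt) (hL : LxnStmt) : BalDev := by
  intro ε hε
  obtain ⟨S0, _, hS0⟩ := hK ε hε
  refine ⟨S0, fun α _ _ hx => ?_⟩
  obtain ⟨e, R, hR, _, hd, h1, h2, _⟩ := hT α
  obtain ⟨x, hx⟩ := hx
  rw [hd x] at hx
  obtain ⟨u, v, huv, hb⟩ := hS0 _ R (hL _ R hR) ⟨e x, hx⟩
  refine ⟨e.symm u, e.symm v, fun h => huv (e.symm.injective h), ?_⟩
  rw [h1, h2, Equiv.apply_symm_apply, Equiv.apply_symm_apply, ← pr_card]
  exact hb

theorem golDev (hT : TrgStmt) (hG : GpsStmt) (hL : LxnStmt) : GolDev := by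
  obtain ⟨S, hS⟩ := hG
  refine ⟨S, fun α _ _ hx => ?_⟩
  obtain ⟨e, R, hR, hlt, hd, h1, h2, h3⟩ := hT α
  obtain ⟨x, hx⟩ := hx
  rw [hd x] at hx
  obtain ⟨a, b, hab, hRab, hRba, hmain⟩ := hS _ R (hL _ R hR) ⟨e x, hx⟩
  have hne : e.symm a ≠ e.symm b := fun h => hab (e.symm.injective h)
  refine ⟨e.symm a, e.symm b, ?_, ?_, ?_⟩
  · intro hle
    have := (hlt _ _).2 (lt_of_le_of_ne hle hne)
    rw [Equiv.apply_symm_apply, Equiv.apply_symm_apply] at this
    exact hRab this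
  · intro hle
    have := (hlt _ _).2 (lt_of_le_of_ne hle hne.symm)
    rw [Equiv.apply_symm_apply, Equiv.apply_symm_apply] at this
    exact hRba this
  · intro u v huv
    have huv' : (e u = a ∧ e v = b) ∨ (e u = b ∧ e v = a) := by
      rcases huv with ⟨rfl, rfl⟩ | ⟨rfl, rfl⟩
      · left; simp
      · right; simp
    obtain ⟨c, d, hcd, hm⟩ := hmain (e u) (e v) huv'
    refine ⟨e.symm c, e.symm d, fun h => hcd (e.symm.injective h), ?_⟩
    intro w z hwz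
    have hwz' : (e w = c ∧ e z = d) ∨ (e w = d ∧ e z = c) := by
      rcases hwz with ⟨rfl, rfl⟩ | ⟨rfl, rfl⟩
      · left; simp
      · right; simp
    rw [h1, h2, h3]
    exact hm (e w) (e z) hwz'

theorem widDev (hT : TrgStmt) (hS : ScbStmt) : WidDev := by
  intro α _ _ s hs hc
  obtain ⟨e, R, hR, hlt, hd, _, _, _⟩ := hT α
  have hanti : ∀ a ∈ s.map e.toEmbedding, ∀ b ∈ s.map e.toEmbedding, ¬ R a b := by
    intro a ha b hb hab
    rw [Finset.mem_map] at ha hb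
    obtain ⟨a', ha', rfl⟩ := ha
    obtain ⟨b', hb', rfl⟩ := hb
    have hl : a' < b' := (hlt a' b').1 hab
    exact hs (Finset.mem_coe.2 ha') (Finset.mem_coe.2 hb') hl.ne hl.le
  obtain ⟨x, hx, hxd⟩ := hS _ R (s.map e.toEmbedding) hR (by rwa [Finset.card_map]) hanti
  rw [Finset.mem_map] at hx
  obtain ⟨y, hy, rfl⟩ := hx
  refine ⟨y, hy, ?_⟩
  rw [hd y]
  rw [Finset.card_map] at hxd
  exact hxd

/-- FNS. -/
theorem fns (hT : TrgStmt) (hK : KsgStmt) (hG : GpsStmt) (hS : ScbStmt) (hL : LxnStmt) :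
    FnsStmt := by
  have hB := balDev hT hK hL
  have hO := golDev hT hG hL
  have hW := widDev hT hS
  have key : ∀ (S : ℝ) (α : Type) [Fintype α] [PartialOrder α],
      (∃ s : Finset α, IsAntichain (· ≤ ·) (s : Set α) ∧ max 10 ⌈10 * S⌉₊ ≤ s.card) →
      ∃ x : α, S ≤ mdev x := by
    intro S α _ _ hs
    obtain ⟨s, hs, hc⟩ := hs
    obtain ⟨x, _, hx⟩ := hW α s hs (le_trans (le_max_left _ _) hc)
    refine ⟨x, le_trans ?_ hx⟩
    have h1 : 10 * S ≤ (s.card : ℝ) :=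
      le_trans (Nat.le_ceil _) (by exact_mod_cast le_trans (le_max_right _ _) hc)
    linarith
  refine ⟨hB, hO, hW, ?_, ?_⟩
  · intro ε hε
    obtain ⟨S, hS⟩ := hB ε hε
    exact ⟨max 10 ⌈10 * S⌉₊, fun α _ _ hs => hS α (key S α hs)⟩
  · obtain ⟨S, hS⟩ := hO
    exact ⟨max 10 ⌈10 * S⌉₊, fun α _ _ hs => hS α (key S α hs)⟩

end Pool.Agent.Helper96.KS
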