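import Pool.Agent.Helper42.KS.Goals

set_option autoImplicit false

namespace Pool.Agent.Helper42.KS.PkPAR

open MeasureTheory
open scoped ENNReal NNReal

/-- one dimensional orthogonality -/
theorem int_one (n : ℤ) :
    ∫ t in Set.Icc (0 : ℝ) 1, ee ((n : ℝ) * t) = if n = 0 then 1 else 0 := by
  rw [integral_Icc_eq_integral_Ioc, ← intervalIntegral.integral_of_le zero_le_one]
  unfold ee
  split_ifs with h
  · subst h
    simp
  · have hc : (2 * Real.pi * (n : ℝ) * Complex.I : ℂ) ≠ 0 := by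
      have hn : (n : ℂ) ≠ 0 := by exact_mod_cast h
      have hpi : (Real.pi : ℂ) ≠ 0 := by exact_mod_cast Real.pi_ne_zero
      simp only [Complex.ofReal_intCast]
      exact mul_ne_zero (mul_ne_zero (mul_ne_zero two_ne_zero hpi) hn) Complex.I_ne_zero
    have e : (fun t : ℝ => Complex.exp ((2 * Real.pi * ((n : ℝ) * t) : ℝ) * Complex.I)) =
        fun t : ℝ => Complex.exp ((2 * Real.pi * (n : ℝ) * Complex.I : ℂ) * t) := by
      funext t
      congr 1
      push_cast
      ring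
    rw [e, integral_exp_mul_complex hc]
    have e1 : (2 * Real.pi * (n : ℝ) * Complex.I : ℂ) * ((1 : ℝ) : ℂ) =
        (n : ℂ) * (2 * Real.pi * Complex.I) := by
      push_cast
      ring
    rw [e1, Complex.exp_int_mul_two_pi_mul_I]
    simp

theorem ee_add (s t : ℝ) : ee (s + t) = ee s * ee t := by
  unfold ee
  rw [← Complex.exp_add]
  congr 1
  push_cast
  ring

theorem ee_conj (s : ℝ) : (starRingEnd ℂ) (ee s) = ee (-s) := by
  unfold ee
  rw [← Complex.exp_conj]
  congr 1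
  rw [map_mul, Complex.conj_I, Complex.conj_ofReal]
  push_cast
  ring

theorem ee_zero : ee 0 = 1 := by
  unfold ee
  simp

theorem ee_sum {ι : Type*} (s : Finset ι) (f : ι → ℝ) : ee (∑ i ∈ s, f i) = ∏ i ∈ s, ee (f i) := by
  classical
  induction s using Finset.induction_on with
  | empty => simp [ee_zero]
  | insert a s ha ih => rw [Finset.sum_insert ha, Finset.prod_insert ha, ee_add, ih]

theorem continuous_ee : Continuous ee := by
  unfold ee
  fun_prop

/-- multi dimensional orthogonality -/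
theorem int_many (d : ℕ) (w : Fin d → ℤ) :
    ∫ ξ in Set.pi Set.univ (fun _ : Fin d => Set.Icc (0 : ℝ) 1), ee (∑ i, (w i : ℝ) * ξ i) =
      if w = 0 then 1 else 0 := by
  have e : ∀ ξ : Fin d → ℝ, ee (∑ i, (w i : ℝ) * ξ i) = ∏ i, (fun (i : Fin d) (t : ℝ) =>
      ee ((w i : ℝ) * t)) i (ξ i) := fun ξ => ee_sum _ _
  rw [integral_congr_ae (Filter.Eventually.of_forall e), volume_pi, Measure.restrict_pi_pi,
    integral_fintype_prod_eq_prod (f := fun (i : Fin d) (t : ℝ) => ee ((w i : ℝ) * t))]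
  simp only [int_one]
  split_ifs with h
  · subst h
    simp
  · obtain ⟨i, hi⟩ := Function.ne_iff.mp h
    exact Finset.prod_eq_zero (Finset.mem_univ i) (if_neg hi)

theorem thm : G_PAR := by
  intro d E
  have hc : ∀ z : Fin d → ℤ, Continuous fun ξ : Fin d → ℝ => ee (∑ i, (z i : ℝ) * ξ i) := by
    intro z
    exact continuous_ee.comp (by fun_prop)
  have key : ((∫ ξ in Set.pi Set.univ (fun _ : Fin d => Set.Icc (0 : ℝ) 1),
      ‖∑ z ∈ E, ee (∑ i, (z i : ℝ) * ξ i)‖ ^ 2 : ℝ) : ℂ) = ((E.card : ℝ) : ℂ) := by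
    rw [← integral_complex_ofReal]
    have e : ∀ ξ : Fin d → ℝ, ((‖∑ z ∈ E, ee (∑ i, (z i : ℝ) * ξ i)‖ ^ 2 : ℝ) : ℂ) =
        ∑ z ∈ E, ∑ z' ∈ E, ee (∑ i, ((z - z') i : ℝ) * ξ i) := by
      intro ξ
      have h1 : ((‖∑ z ∈ E, ee (∑ i, (z i : ℝ) * ξ i)‖ ^ 2 : ℝ) : ℂ) =
          (∑ z ∈ E, ee (∑ i, (z i : ℝ) * ξ i)) *
            (starRingEnd ℂ) (∑ z ∈ E, ee (∑ i, (z i : ℝ) * ξ i)) := by
        rw [Complex.mul_conj, Complex.normSq_eq_norm_sq]
      rw [h1, map_sum, Finset.sum_mul_sum]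
      refine Finset.sum_congr rfl fun z _ => Finset.sum_congr rfl fun z' _ => ?_
      rw [ee_conj, ← ee_add]
      congr 1
      rw [← Finset.sum_neg_distrib, ← Finset.sum_add_distrib]
      refine Finset.sum_congr rfl fun i _ => ?_
      rw [Pi.sub_apply]
      push_cast
      ring
    have hK : IsCompact (Set.pi Set.univ (fun _ : Fin d => Set.Icc (0 : ℝ) 1)) :=
      isCompact_univ_pi fun _ => isCompact_Icc
    have hint : ∀ z : Fin d → ℤ, IntegrableOn (fun ξ : Fin d → ℝ => ee (∑ i, (z i : ℝ) * ξ i))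
        (Set.pi Set.univ (fun _ : Fin d => Set.Icc (0 : ℝ) 1)) volume := fun z =>
      (hc z).continuousOn.integrableOn_compact hK
    have e2 : ∫ ξ in Set.pi Set.univ (fun _ : Fin d => Set.Icc (0 : ℝ) 1),
        ((‖∑ z ∈ E, ee (∑ i, (z i : ℝ) * ξ i)‖ ^ 2 : ℝ) : ℂ) =
        ∫ ξ in Set.pi Set.univ (fun _ : Fin d => Set.Icc (0 : ℝ) 1),
          ∑ z ∈ E, ∑ z' ∈ E, ee (∑ i, ((z - z') i : ℝ) * ξ i) :=
      integral_congr_ae (Filter.Eventually.of_forall e)
    have e3 : ∫ ξ in Set.pi Set.univ (fun _ : Fin d => Set.Icc (0 : ℝ) 1),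
          ∑ z ∈ E, ∑ z' ∈ E, ee (∑ i, ((z - z') i : ℝ) * ξ i) =
        ∑ z ∈ E, ∑ z' ∈ E, (if z - z' = 0 then (1 : ℂ) else 0) := by
      rw [integral_finsetSum _ fun z _ => integrable_finsetSum _ fun z' _ => hint (z - z')]
      refine Finset.sum_congr rfl fun z _ => ?_
      rw [integral_finsetSum _ fun z' _ => hint (z - z')]
      exact Finset.sum_congr rfl fun z' _ => int_many d (z - z')
    refine (e2.trans e3).trans ?_
    have e4 : ∀ z ∈ E, ∑ z' ∈ E, (if z - z' = 0 then (1 : ℂ) else 0) = 1 := by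
      intro z hz
      rw [Finset.sum_eq_single z]
      · simp
      · intro z' _ hne
        exact if_neg fun h0 => hne (sub_eq_zero.mp h0).symm
      · intro h
        exact absurd hz h
    rw [Finset.sum_congr rfl e4]
    simp
  exact_mod_cast key

end Pool.Agent.Helper42.KS.PkPAR
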